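import Mathlib

/-!
# Points at which all reflexive tensor sheaves are Cohen-Macaulay

`Germ ext ..` are the data of a point of a threefold with canonical Gorenstein singularities which is
not a quotient singularity; `ext a b` is the total length of the sheaf `Ext^1(W_(a,b), O)` on the
threefold, `W_(a,b)` is the reflexive hull of the tensor product of `a` copies of the tangent sheaf
and `b` copies of the sheaf of one-forms. `Germ.false`: not all these numbers are zero.
-/

namespace Pool.Agent.H13.CM

open Finset

section Different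

variable {k K V V' : Type*} [Field k] [Field K] [Algebra k K] [AddCommGroup V] [Module K V]
  [Module k V] [IsScalarTower k K V] [AddCommGroup V'] [Module K V'] [Module k V']
  [IsScalarTower k K V']

omit [Module k V] [IsScalarTower k K V] in
/-- the expansion with respect to a pair of dual families -/
theorem expand {ι : Type*} [Fintype ι] [DecidableEq ι] (τ : K →ₗ[k] k) (β : V →ₗ[K] V' →ₗ[K] K)
    (v : ι → V) (v' : ι → V') (hd : ∀ i j, τ (β (v i) (v' j)) = if i = j then 1 else 0)
    (hs : ⊤ ≤ Submodule.span k (Set.range v')) (u : V') :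
    u = ∑ i, τ (β (v i) u) • v' i := by
  have hu : u ∈ Submodule.span k (Set.range v') := hs trivial
  obtain ⟨a, ha⟩ := (Submodule.mem_span_range_iff_exists_fun k).1 hu
  rw [← ha]
  refine Finset.sum_congr rfl ?_
  intro i _
  congr 1
  rw [map_sum, map_sum]
  rw [Finset.sum_eq_single i]
  · rw [← algebraMap_smul K, map_smul, algebraMap_smul K, map_smul, hd, if_pos rfl, smul_eq_mul,
      mul_one]
  · intro j _ hj
    rw [← algebraMap_smul K, map_smul, algebraMap_smul K, map_smul, hd, if_neg (Ne.symm hj),
      smul_zero]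
  · intro h
    exact absurd (Finset.mem_univ i) h

omit [Module k V'] [IsScalarTower k K V'] in
/-- the expansion with respect to the second family -/
theorem expand' {ι : Type*} [Fintype ι] [DecidableEq ι] (τ : K →ₗ[k] k) (β : V →ₗ[K] V' →ₗ[K] K)
    (v : ι → V) (v' : ι → V') (hd : ∀ i j, τ (β (v i) (v' j)) = if i = j then 1 else 0)
    (hs : ⊤ ≤ Submodule.span k (Set.range v)) (u : V) :
    u = ∑ i, τ (β u (v' i)) • v i := by
  have h := expand τ β.flip v' v
    (fun i j => by rw [LinearMap.flip_apply, hd]; simp only [eq_comm]) hs u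
  simpa only [LinearMap.flip_apply] using h

/-- The uniform different: if `τ (β (v i) (v' j)) = δ_ij`, `τ (c i * c' j) = δ_ij` for bases over the
small field and `β (e a) (e' b) = δ_ab` for bases over the large field, then
`(∑ c j * c' j) w = ∑ β w (v' i) v i`. -/
theorem different {ι κ α : Type*} [Fintype ι] [DecidableEq ι] [Fintype κ] [DecidableEq κ]
    [Fintype α] (τ : K →ₗ[k] k) (β : V →ₗ[K] V' →ₗ[K] K)
    (c c' : κ → K) (hc : ∀ i j, τ (c i * c' j) = if i = j then 1 else 0)
    (hcs : ⊤ ≤ Submodule.span k (Set.range c))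
    (v : ι → V) (v' : ι → V') (hd : ∀ i j, τ (β (v i) (v' j)) = if i = j then 1 else 0)
    (hs' : ⊤ ≤ Submodule.span k (Set.range v'))
    (e : α → V) (e' : α → V') (hspan : ∀ w : V, w = ∑ a, β w (e' a) • e a)
    (w : V) : (∑ j, c j * c' j) • w = ∑ i, β w (v' i) • v i := by
  have hv : ∀ i, v i = ∑ a, ∑ j, τ (β (v i) (c' j • e' a)) • (c j • e a) := by
    intro i
    conv_lhs => rw [hspan (v i)]
    refine Finset.sum_congr rfl ?_
    intro a _
    have hx : β (v i) (e' a) = ∑ j, τ (c' j * β (v i) (e' a)) • c j := by
      have h := expand' τ (LinearMap.mul K K) c c'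
        (fun i j => by simpa only [LinearMap.mul_apply'] using hc i j) hcs (β (v i) (e' a))
      conv_lhs => rw [h]
      refine Finset.sum_congr rfl ?_
      intro j _
      rw [LinearMap.mul_apply', mul_comm]
    conv_lhs => rw [hx]
    rw [Finset.sum_smul]
    refine Finset.sum_congr rfl ?_
    intro j _
    rw [map_smul, smul_eq_mul, smul_assoc]
  have hu : ∀ u : V', ∑ i, τ (β (v i) u) • v' i = u := fun u => (expand τ β v v' hd hs' u).symm
  have sm : ∀ (t : k) (u : V') (y : V), β w u • t • y = β w (t • u) • y := by
    intro t u y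
    rw [← algebraMap_smul K t u, map_smul, ← algebraMap_smul K t y, smul_eq_mul, mul_smul,
      smul_comm]
  have key : ∑ i, β w (v' i) • v i = ∑ a, ∑ j, β w (c' j • e' a) • (c j • e a) := by
    calc ∑ i, β w (v' i) • v i
        = ∑ i, ∑ a, ∑ j, β w (v' i) • τ (β (v i) (c' j • e' a)) • (c j • e a) := by
          refine Finset.sum_congr rfl ?_
          intro i _
          conv_lhs => rw [hv i]
          rw [Finset.smul_sum]
          refine Finset.sum_congr rfl ?_
          intro a _
          rw [Finset.smul_sum]
      _ = ∑ a, ∑ j, ∑ i, β w (v' i) • τ (β (v i) (c' j • e' a)) • (c j • e a) := by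
          rw [Finset.sum_comm]
          refine Finset.sum_congr rfl ?_
          intro a _
          rw [Finset.sum_comm]
      _ = ∑ a, ∑ j, β w (c' j • e' a) • (c j • e a) := by
          refine Finset.sum_congr rfl ?_
          intro a _
          refine Finset.sum_congr rfl ?_
          intro j _
          conv_rhs => rw [← hu (c' j • e' a)]
          rw [map_sum, Finset.sum_smul]
          refine Finset.sum_congr rfl ?_
          intro i _
          exact sm _ _ _
  rw [key, Finset.sum_smul]
  conv_lhs => rw [hspan w]
  simp only [Finset.smul_sum]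
  rw [Finset.sum_comm]
  refine Finset.sum_congr rfl ?_
  intro a _
  refine Finset.sum_congr rfl ?_
  intro j _
  rw [map_smul, smul_eq_mul, smul_smul, smul_smul]
  congr 1
  ring

/-- dual bases of a nondegenerate form on a finite dimensional space -/
theorem exists_dual {F X : Type*} [Field F] [AddCommGroup X] [Module F X] [FiniteDimensional F X]
    (β : X →ₗ[F] X →ₗ[F] F) (hβ : ∀ y, (∀ x, β x y = 0) → y = 0) :
    ∃ (m : ℕ) (e e' : Fin m → X), (∀ a b, β (e a) (e' b) = if a = b then 1 else 0) ∧
      (⊤ ≤ Submodule.span F (Set.range e)) ∧ ∀ w, w = ∑ a, β w (e' a) • e a := by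
  obtain ⟨e, he⟩ : ∃ e : Module.Basis (Fin (Module.finrank F X)) F X, e = Module.finBasis F X :=
    ⟨_, rfl⟩
  have hinj : Function.Injective β.flip := by
    rw [← LinearMap.ker_eq_bot, LinearMap.ker_eq_bot']
    intro y hy
    apply hβ
    intro x
    have := LinearMap.congr_fun hy x
    simpa using this
  have hsurj : Function.Surjective β.flip := by
    have hfr : Module.finrank F X = Module.finrank F (X →ₗ[F] F) :=
      (Subspace.dual_finrank_eq (K := F) (V := X)).symm
    exact (LinearMap.injective_iff_surjective_of_finrank_eq_finrank hfr).1 hinj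
  choose g hg using hsurj
  have hc : ∀ w b, β w (g (e.coord b)) = e.repr w b := by
    intro w b
    have := LinearMap.congr_fun (hg (e.coord b)) w
    simpa using this
  refine ⟨_, e, fun b => g (e.coord b), ?_, ?_, ?_⟩
  · intro a b
    rw [hc, e.repr_self, Finsupp.single_apply]
  · rw [e.span_eq]
  · intro w
    conv_lhs => rw [← e.sum_repr w]
    refine Finset.sum_congr rfl ?_
    intro a _
    rw [hc]

/-- For a finite extension of fields of characteristic zero and a nonzero linear form `τ` there is
an element `δ ≠ 0` such that `δ w = ∑ β w (v' i) v i` for all `V`, `β` and all dual families. -/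
theorem uniform {F L : Type*} [Field F] [Field L] [Algebra F L] [CharZero F]
    [FiniteDimensional F L] (τ : L →ₗ[F] F) (hτ : τ ≠ 0) :
    ∃ δ : L, δ ≠ 0 ∧ ∀ (X : Type) [AddCommGroup X] [Module L X] [Module F X]
      [IsScalarTower F L X] (β : X →ₗ[L] X →ₗ[L] L) (n : ℕ) (v v' : Fin n → X),
      (∀ i j, τ (β (v i) (v' j)) = if i = j then 1 else 0) →
      ⊤ ≤ Submodule.span F (Set.range v) → ⊤ ≤ Submodule.span F (Set.range v') →
      ∀ w, δ • w = ∑ i, β w (v' i) • v i := by
  obtain ⟨m, c, c', hc, hcs, hcw⟩ := exists_dual (F := F) (X := L)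
    ((LinearMap.mul F L).compr₂ τ) (by
      intro y hy
      by_contra hy0
      apply hτ
      ext x
      have := hy (x * y⁻¹)
      simpa [mul_assoc, inv_mul_cancel₀ hy0] using this)
  have hc' : ∀ i j, τ (c i * c' j) = if i = j then 1 else 0 := by
    intro i j
    simpa using hc i j
  refine ⟨∑ j, c j * c' j, ?_, ?_⟩
  · intro h0
    have h1 : τ (∑ j, c j * c' j) = (m : F) := by
      rw [map_sum, Finset.sum_congr rfl (fun j _ => (hc' j j).trans (if_pos rfl))]
      simp
    rw [h0, map_zero] at h1
    have hm : m = 0 := by exact_mod_cast h1.symm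
    subst hm
    have h2 := hcw 1
    simp at h2
  · intro X _ _ _ _ β n v v' hd hs hs' w
    have : Module.Finite F X := by
      refine ⟨⟨(Set.finite_range v).toFinset, ?_⟩⟩
      rw [Set.Finite.coe_toFinset]
      exact top_le_iff.1 hs
    have : FiniteDimensional L X := Module.Finite.of_restrictScalars_finite F L X
    obtain ⟨r, e, e', -, -, hew⟩ := exists_dual β (by
      intro y hy
      have h := expand τ β v v' hd hs' y
      rw [h]
      refine Finset.sum_eq_zero ?_
      intro i _
      rw [hy, map_zero, zero_smul])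
    exact different τ β c c' hc' hcs v v' hd hs' e e' hew w

end Different

/-- Krull's intersection theorem and the Reynolds operator. -/
theorem krull {A R : Type*} [CommRing A] [IsLocalRing A] [CommRing R] [Algebra A R]
    [IsNoetherianRing R] (ρ : R →ₗ[A] A) (h1 : ρ 1 = 1) (n : Ideal R)
    (hn : ∀ r ∈ n, ρ r ∈ IsLocalRing.maximalIdeal A) (J : Ideal A) [IsArtinianRing (A ⧸ J)] :
    ∃ l, ∀ a, algebraMap A R a ∈ n ^ l → a ∈ J := by
  have hρa : ∀ r a, ρ (r * algebraMap A R a) = a * ρ r := by
    intro r a
    rw [mul_comm, ← Algebra.smul_def, map_smul, smul_eq_mul]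
  have hρ1 : ∀ a, ρ (algebraMap A R a) = a := by
    intro a
    have := hρa 1 a
    rwa [one_mul, h1, mul_one] at this
  have hρJ : ∀ r ∈ J.map (algebraMap A R), ρ r ∈ J := by
    have key : ∀ r ∈ J.map (algebraMap A R), ∀ s, ρ (s * r) ∈ J := by
      intro r hr
      refine Submodule.span_induction ?_ ?_ ?_ ?_ hr
      · rintro _ ⟨a, ha, rfl⟩ s
        rw [hρa]
        exact J.mul_mem_right _ ha
      · intro s
        rw [mul_zero, map_zero]
        exact J.zero_mem
      · intro x y _ _ hx hy s
        rw [mul_add, map_add]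
        exact J.add_mem (hx s) (hy s)
      · intro t x _ hx s
        rw [smul_eq_mul, ← mul_assoc]
        exact hx _
    intro r hr
    have := key r hr 1
    rwa [one_mul] at this
  -- the chain of ideals of `A / J`
  obtain ⟨b, hb⟩ : ∃ b : ℕ → Ideal (A ⧸ J),
      ∀ l, b l = ((n ^ l).comap (algebraMap A R)).map (Ideal.Quotient.mk J) := ⟨_, fun _ => rfl⟩
  have hanti : Antitone b := by
    intro i j hij
    rw [hb, hb]
    exact Ideal.map_mono (Ideal.comap_mono (Ideal.pow_le_pow_right hij))
  obtain ⟨N, hN⟩ := IsArtinian.monotone_stabilizes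
    (⟨fun l => OrderDual.toDual (b l), fun i j hij => hanti hij⟩ : ℕ →o (Submodule (A ⧸ J) (A ⧸ J))ᵒᵈ)
  have hN' : ∀ m, N ≤ m → b N = b m := fun m hm => hN m hm
  have hmem : ∀ l x, x ∈ b l → ∃ a, algebraMap A R a ∈ n ^ l ∧ Ideal.Quotient.mk J a = x := by
    intro l x hx
    rw [hb] at hx
    obtain ⟨a, ha, rfl⟩ := (Ideal.mem_map_iff_of_surjective _ Ideal.Quotient.mk_surjective).1 hx
    exact ⟨a, ha, rfl⟩
  have hbot : ∀ x ∈ b N, x = 0 := by
    intro x hx
    obtain ⟨h, hh, rfl⟩ := hmem N x hx
    obtain ⟨I, hI⟩ : ∃ I, I = J.map (algebraMap A R) := ⟨_, rfl⟩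
    rw [← hI] at hρJ
    have hall : ∀ m, Ideal.Quotient.mk I (algebraMap A R h) ∈ (n.map (Ideal.Quotient.mk I)) ^ m := by
      intro m
      have hxm : Ideal.Quotient.mk J h ∈ b (max N m) := by
        rw [← hN' _ (le_max_left N m)]
        exact hx
      obtain ⟨a, ha, hax⟩ := hmem _ _ hxm
      have h2 : h - a ∈ J := by
        rw [← Ideal.Quotient.eq]
        exact hax.symm
      have h3 : Ideal.Quotient.mk I (algebraMap A R h) = Ideal.Quotient.mk I (algebraMap A R a) := by
        rw [Ideal.Quotient.eq, ← map_sub, hI]
        exact Ideal.mem_map_of_mem _ h2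
      rw [h3, ← Ideal.map_pow]
      exact Ideal.mem_map_of_mem _ (Ideal.pow_le_pow_right (le_max_right N m) ha)
    have hinf : Ideal.Quotient.mk I (algebraMap A R h) ∈
        (⨅ i : ℕ, (n.map (Ideal.Quotient.mk I)) ^ i • (⊤ : Submodule (R ⧸ I) (R ⧸ I))) := by
      rw [Submodule.mem_iInf]
      intro i
      rw [smul_eq_mul, Ideal.mul_top]
      exact hall i
    rw [Ideal.mem_iInf_smul_pow_eq_bot_iff] at hinf
    obtain ⟨⟨r, hr⟩, hr2⟩ := hinf
    obtain ⟨r0, hr0, rfl⟩ := (Ideal.mem_map_iff_of_surjective _ Ideal.Quotient.mk_surjective).1 hr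
    have h4 : r0 * algebraMap A R h - algebraMap A R h ∈ I := by
      rw [← Ideal.Quotient.eq, map_mul]
      exact hr2
    have h5 := hρJ _ h4
    rw [map_sub, hρa, hρ1] at h5
    have h6 : h * (1 - ρ r0) ∈ J := by
      have : h * (1 - ρ r0) = -(h * ρ r0 - h) := by ring
      rw [this]
      exact J.neg_mem h5
    have hu : IsUnit (1 - ρ r0) := by
      by_contra hcon
      have h7 : 1 - ρ r0 ∈ IsLocalRing.maximalIdeal A := (IsLocalRing.mem_maximalIdeal _).2 hcon
      have h8 : (1 : A) ∈ IsLocalRing.maximalIdeal A := by
        have := (IsLocalRing.maximalIdeal A).add_mem h7 (hn r0 hr0)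
        rwa [sub_add_cancel] at this
      exact (Ideal.ne_top_iff_one _).1 (IsLocalRing.maximalIdeal.isMaximal A).ne_top h8
    rw [Ideal.Quotient.eq_zero_iff_mem]
    exact (Ideal.mul_unit_mem_iff_mem _ hu).1 h6
  refine ⟨N, ?_⟩
  intro a ha
  have h2 : Ideal.Quotient.mk J a ∈ b N := by
    rw [hb]
    exact Ideal.mem_map_of_mem _ ha
  exact Ideal.Quotient.eq_zero_iff_mem.1 (hbot _ h2)

/-- Luna's étale slice `N` at a point `p'` of the closed orbit over the given point, in the spectrum
of the algebra of all `W_V ⊗ V^*`. `Q` is the stabiliser of `p'`, a reductive group. `A` is the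
completed local ring of `N // Q`, which is étale over the threefold, `P` a ring of power series over
which `A` is finite, `R` the ring of functions of `N` with coefficients in `A`, `Irr` the set of the
irreducible representations of `Q`. `R` is generated over `A` by a finite dimensional representation
`E` of `Q` consisting of functions which vanish at `p'`. The hypothesis `cm` says that all sheaves
`W_(a,b)` are Cohen-Macaulay. -/
structure Slice (cm : Prop) (P A R Irr : Type) [CommRing P] [IsLocalRing P] [CommRing A]
    [IsLocalRing A] [Algebra P A] [CommRing R] [Algebra A R] where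
  /-- `A` is Gorenstein: `τ` generates the dual of `A` over `P` -/
  τ : A →ₗ[P] P
  artinian : IsArtinianRing (A ⧸ (IsLocalRing.maximalIdeal P).map (algebraMap P A))
  noetherian : IsNoetherianRing R
  /-- the Reynolds operator: `A` is the ring of invariants of `R` -/
  ρ : R →ₗ[A] A
  ρ_one : ρ 1 = 1
  /-- the ideal of the point `p'`, which is fixed by `Q` -/
  n : Ideal R
  ρ_n : ∀ r ∈ n, ρ r ∈ IsLocalRing.maximalIdeal A
  /-- `Q` is infinite. Otherwise `N` is a finite cover of the threefold which is étale in codimension
  one, with free tangent sheaf; by the theorem of Lipman and Zariski for canonical singularities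
  (Greb, Kebekus, Kovács, Peternell) `N` is smooth, and the point is a quotient singularity -/
  infinite : Infinite Irr
  /-- the smallest degree of a symmetric power of `E` which contains `V` or `V^*`; each symmetric
  power has finitely many constituents -/
  deg : Irr → ℕ
  finite : ∀ l, {V | deg V < l}.Finite
  dim : Irr → ℕ
  /-- coordinates of the first element of a basis over `P` of the module `(R ⊗ V)^Q` -/
  s : ∀ V, Fin (dim V) → R
  /-- coordinates of the first element of the dual basis of `(R ⊗ V^*)^Q` -/
  s' : ∀ V, Fin (dim V) → R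
  /-- complete reducibility: the elements of these modules come from the symmetric algebra of `E` -/
  mem : ∀ V j, s V j ∈ n ^ deg V ∧ s' V j ∈ n ^ deg V
  /-- the product of the two elements -/
  pair : Irr → A
  pair_eq : ∀ V, algebraMap A R (pair V) = ∑ j, s V j * s' V j
  /-- The module `(R ⊗ V)^Q` is a direct summand of a module of the representation of the large
  group. If it is Cohen-Macaulay then it is free over `P`, and by duality for the finite map the dual
  basis exists in its reflexive dual `(R ⊗ V^*)^Q`. -/
  dual : cm → ∀ V, τ (pair V) = 1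

/-- In the Cohen-Macaulay case the stabiliser is finite. -/
theorem Slice.false {cm : Prop} {P A R Irr : Type} [CommRing P] [IsLocalRing P] [CommRing A]
    [IsLocalRing A] [Algebra P A] [CommRing R] [Algebra A R] (S : Slice cm P A R Irr) (h : cm) :
    False := by
  have := S.artinian
  have := S.noetherian
  have := S.infinite
  obtain ⟨l, hl⟩ := krull S.ρ S.ρ_one S.n S.ρ_n
    ((IsLocalRing.maximalIdeal P).map (algebraMap P A))
  have hτ : ∀ a ∈ (IsLocalRing.maximalIdeal P).map (algebraMap P A),
      S.τ a ∈ IsLocalRing.maximalIdeal P := by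
    have key : ∀ a ∈ (IsLocalRing.maximalIdeal P).map (algebraMap P A),
        ∀ b, S.τ (b * a) ∈ IsLocalRing.maximalIdeal P := by
      intro a ha
      refine Submodule.span_induction ?_ ?_ ?_ ?_ ha
      · rintro _ ⟨y, hy, rfl⟩ b
        rw [mul_comm, ← Algebra.smul_def, map_smul, smul_eq_mul]
        exact Ideal.mul_mem_right _ _ hy
      · intro b
        rw [mul_zero, map_zero]
        exact Ideal.zero_mem _
      · intro x y _ _ hx hy b
        rw [mul_add, map_add]
        exact Ideal.add_mem _ (hx b) (hy b)
      · intro t x _ hx b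
        rw [smul_eq_mul, ← mul_assoc]
        exact hx _
    intro a ha
    have := key a ha 1
    rwa [one_mul] at this
  obtain ⟨V, hV⟩ : ∃ V, V ∉ {V | S.deg V < l} := (S.finite l).exists_notMem
  have hV' : l ≤ S.deg V := not_lt.1 hV
  have h1 : algebraMap A R (S.pair V) ∈ S.n ^ l := by
    rw [S.pair_eq]
    refine Ideal.sum_mem _ ?_
    intro j _
    exact Ideal.mul_mem_right _ _ (Ideal.pow_le_pow_right hV' (S.mem V j).1)
  have h2 := hτ _ (hl _ h1)
  rw [S.dual h V] at h2
  exact (Ideal.ne_top_iff_one _).1 (IsLocalRing.maximalIdeal.isMaximal P).ne_top h2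

/-- A prime divisor `B` over the flag bundle `F`, with centre over the singular set of `U`. The order
along `B` is extended to an algebraic closure of the function field of `F`; `v` is its restriction to
the algebraic closure `K'` of the function field `K` of `U`, and `a` is the log discrepancy over `U`
of the restriction of `v` to `K` (with the same normalisation). `V` is the generic fibre of the sheaf
`W_(2kρ)` with its form `β`, `M` the set of its sections over `U`; `W` is the irreducible
representation `V_(2kρ)` of the group with coefficients in `K'`, and `γ` its invariant form. -/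
structure Place (K K' V W : Type) [Field K] [Field K'] [AddCommGroup V] [Module K V]
    [AddCommGroup W] [Module K' W] (β : V →ₗ[K] V →ₗ[K] K) (M : Set V)
    (γ : W →ₗ[K'] W →ₗ[K'] K') (ι : K →+* K') (v : AddValuation K' (WithTop ℚ)) (k : ℕ)
    (a : ℚ) where
  /-- the value at a point of the principal bundle with coordinates in `K'` -/
  val : V →ₛₗ[ι] W
  span : ⊤ ≤ Submodule.span K' (Set.range val)
  form : ∀ x y, γ (val x) (val y) = ι (β x y)
  /-- `V_(2kρ)` with coefficients in the valuation ring -/
  Λ : Set W
  integral : ∀ x ∈ Λ, ∀ y ∈ Λ, 0 ≤ v (γ x y)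
  /-- semistable reduction for geometric invariant theory (Mumford, Seshadri): the invariants of the
  generators of `M` are functions on `U`, and their values span `W`, so that the orbit of the tuple
  of values is closed; so the point can be chosen such that all sections are integral -/
  git : ∀ x ∈ M, val x ∈ Λ
  /-- the order along `B` of sections of the line bundle on the flag variety over the valuation
  ring -/
  ord : W → WithTop ℚ
  ord_add : ∀ x y, min (ord x) (ord y) ≤ ord (x + y)
  ord_smul : ∀ r x, ord (r • x) = v r + ord x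
  /-- the line bundle has no base points -/
  free : ∃ s ∈ Λ, ord s = 0
  /-- the log discrepancy of `B` with respect to `F` and `1/k` times the divisor of a general element
  of a finite dimensional space of sections of `-k K_(F/U)` which generates `M`; the order of the
  general element along `B` is the minimum over `M` -/
  disc : ℚ
  /-- the flag variety over the valuation ring is smooth, so it has no log discrepancies less than
  that of the special fibre: `a - (order of the general section) / k ≤ disc` -/
  adjunction : ∀ x ∈ M, ((k * a : ℚ) : WithTop ℚ) ≤ ((k * disc : ℚ) : WithTop ℚ) + ord (val x)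

/-- Log discrepancies are positive for large `k`. -/
theorem Place.pos {K K' V W : Type} [Field K] [Field K'] [AddCommGroup V] [Module K V]
    [AddCommGroup W] [Module K' W] {β : V →ₗ[K] V →ₗ[K] K} {M : Set V}
    {γ : W →ₗ[K'] W →ₗ[K'] K'} {ι : K →+* K'} {v : AddValuation K' (WithTop ℚ)} {k : ℕ} {a : ℚ}
    (p : Place K K' V W β M γ ι v k a) (δ : K) (hδ : v (ι δ) < ((k * a : ℚ) : WithTop ℚ))
    (n : ℕ) (x x' : Fin n → V) (hx : ∀ i, x i ∈ M) (hx' : ∀ i, x' i ∈ M)
    (hid : ∀ w, δ • w = ∑ i, β w (x' i) • x i) : 0 < p.disc := by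
  have hid' : ∀ w, ι δ • w = ∑ i, γ w (p.val (x' i)) • p.val (x i) := by
    intro w
    have hw : w ∈ Submodule.span K' (Set.range p.val) := p.span trivial
    refine Submodule.span_induction ?_ ?_ ?_ ?_ hw
    · rintro _ ⟨y, rfl⟩
      rw [← map_smulₛₗ, hid, map_sum]
      refine Finset.sum_congr rfl ?_
      intro i _
      rw [map_smulₛₗ, p.form]
    · simp
    · intro y z _ _ hy hz
      rw [smul_add, hy, hz, ← Finset.sum_add_distrib]
      refine Finset.sum_congr rfl ?_
      intro i _
      rw [map_add, LinearMap.add_apply, add_smul]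
    · intro r y _ hy
      rw [smul_comm, hy, Finset.smul_sum]
      refine Finset.sum_congr rfl ?_
      intro i _
      rw [map_smul, LinearMap.smul_apply, smul_eq_mul, mul_smul]
  obtain ⟨s, hs, hs0⟩ := p.free
  have hsum : ∀ (c : WithTop ℚ) (t : Finset (Fin n)) (f : Fin n → W), c < ⊤ →
      (∀ i ∈ t, c < p.ord (f i)) → c < p.ord (∑ i ∈ t, f i) := by
    intro c t f hc
    induction t using Finset.induction_on with
    | empty =>
      intro _
      rw [Finset.sum_empty]
      have h0 := p.ord_smul 0 s
      rw [zero_smul, v.map_zero, top_add] at h0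
      rw [h0]
      exact hc
    | insert i t hi ih =>
      intro h
      rw [Finset.sum_insert hi]
      refine lt_of_lt_of_le ?_ (p.ord_add _ _)
      exact lt_min (h i (Finset.mem_insert_self i t))
        (ih fun j hj => h j (Finset.mem_insert_of_mem hj))
  have hex : ∃ i, p.ord (p.val (x i)) ≤ v (ι δ) := by
    by_contra hcon
    push Not at hcon
    have h1 := hsum (v (ι δ)) Finset.univ
      (fun i => γ s (p.val (x' i)) • p.val (x i)) (lt_of_lt_of_le hδ le_top) (by
        intro i _
        rw [p.ord_smul]
        refine lt_of_lt_of_le (hcon i) ?_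
        have := p.integral s hs _ (p.git _ (hx' i))
        calc p.ord (p.val (x i)) = 0 + p.ord (p.val (x i)) := (zero_add _).symm
          _ ≤ _ := add_le_add_left this _)
    rw [← hid' s, p.ord_smul, hs0, add_zero] at h1
    exact lt_irrefl _ h1
  obtain ⟨i, hi⟩ := hex
  have h2 := p.adjunction (x i) (hx i)
  have h3 : ((k * a : ℚ) : WithTop ℚ) ≤ ((k * p.disc : ℚ) : WithTop ℚ) + v (ι δ) :=
    h2.trans (add_le_add_right hi _)
  obtain ⟨q, hq⟩ : ∃ q : ℚ, v (ι δ) = (q : WithTop ℚ) := by
    have : v (ι δ) ≠ ⊤ := (lt_of_lt_of_le hδ le_top).ne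
    obtain ⟨q, hq⟩ := WithTop.ne_top_iff_exists.1 this
    exact ⟨q, hq.symm⟩
  rw [hq] at h3 hδ
  have h4 : q < k * a := by exact_mod_cast hδ
  have h5 : (k * a : ℚ) ≤ k * p.disc + q := by exact_mod_cast h3
  have h6 : 0 < (k : ℚ) * p.disc := by linarith
  by_contra hcon
  push Not at hcon
  have : (k : ℚ) * p.disc ≤ 0 := mul_nonpos_of_nonneg_of_nonpos (Nat.cast_nonneg k) hcon
  linarith

/-- The sheaf `W_(2kρ)` on `U`, for one `k`: it is the reflexive hull of the direct image of
`-k K_(F/U)`. `V` is its generic fibre, `W` the representation `V_(2kρ)` with coefficients in `K'`. -/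
structure Level (cm : Prop) (K₀ K K' Div V W : Type) [Field K₀] [Field K] [Algebra K₀ K] [Field K']
    [AddCommGroup V] [Module K V] [Module K₀ V] [AddCommGroup W] [Module K' W]
    (τ : K →ₗ[K₀] K₀) (ι : Div → K →+* K') (v : Div → AddValuation K' (WithTop ℚ)) (a : Div → ℚ)
    (k : ℕ) where
  /-- the sheaf is selfdual -/
  β : V →ₗ[K] V →ₗ[K] K
  /-- the sections over `U` -/
  M : Set V
  γ : W →ₗ[K'] W →ₗ[K'] K'
  /-- If the sheaf is Cohen-Macaulay then its module of sections is free over the ring of the affine
  space (Quillen, Suslin), and it has dual bases (duality for finite maps). -/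
  dual : cm → ∃ (n : ℕ) (x x' : Fin n → V), (∀ i, x i ∈ M) ∧ (∀ i, x' i ∈ M) ∧
    (∀ i j, τ (β (x i) (x' j)) = if i = j then 1 else 0) ∧
    ⊤ ≤ Submodule.span K₀ (Set.range x) ∧ ⊤ ≤ Submodule.span K₀ (Set.range x')
  place : ∀ B : Div, Place K K' V W β M γ (ι B) (v B) k (a B)

/-- All log discrepancies are positive. -/
def Level.Klt {cm : Prop} {K₀ K K' Div V W : Type} [Field K₀] [Field K] [Algebra K₀ K] [Field K']
    [AddCommGroup V] [Module K V] [Module K₀ V] [AddCommGroup W] [Module K' W]
    {τ : K →ₗ[K₀] K₀} {ι : Div → K →+* K'} {v : Div → AddValuation K' (WithTop ℚ)} {a : Div → ℚ}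
    {k : ℕ} (l : Level cm K₀ K K' Div V W τ ι v a k) : Prop :=
  ∀ B, 0 < (l.place B).disc

/-- A point of the threefold with canonical Gorenstein singularities which is not a quotient
singularity; `ext a b` is the total length (over all points of the threefold) of the sheaf
`Ext^1(W_(a,b), O)` for the reflexive hull `W_(a,b)` of the tensor product of `a` copies of the
tangent sheaf and `b` copies of its dual; if it is zero then `W_(a,b)` is Cohen-Macaulay. `U` is
an affine neighbourhood of the point, `K` its function field; `U` is finite over the affine space with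
function field `K₀`. `F` is the flag bundle of the tangent sheaf over the smooth part of `U`, an
associated bundle of a principal bundle with group `SL_3`. `Div` is the set of all prime divisors
over `F` with centre over the singular set of `U`. -/
structure Germ (ext : ℕ → ℕ → ℕ) (K₀ K K' Div P A R Irr : Type) (V W : ℕ → Type) [Field K₀]
    [Field K] [Algebra K₀ K] [Field K'] [∀ k, AddCommGroup (V k)] [∀ k, Module K (V k)]
    [∀ k, Module K₀ (V k)] [∀ k, AddCommGroup (W k)]
    [∀ k, Module K' (W k)] [CommRing P] [IsLocalRing P] [CommRing A]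
    [IsLocalRing A] [Algebra P A] [CommRing R] [Algebra A R] where
  char : CharZero K₀
  fin : FiniteDimensional K₀ K
  tower : ∀ k, IsScalarTower K₀ K (V k)
  /-- generator of the dual of the ring of `U` over the ring of the affine space (`U` is
  Gorenstein) -/
  τ : K →ₗ[K₀] K₀
  τ_ne : τ ≠ 0
  ι : Div → K →+* K'
  v : Div → AddValuation K' (WithTop ℚ)
  a : Div → ℚ
  /-- `U` has canonical singularities, so it is log terminal with a small multiple of a divisor -/
  klt : ∀ x : K, x ≠ 0 → ∃ k₀ : ℕ, ∀ k ≥ k₀, ∀ B, v B (ι B x) < ((k * a B : ℚ) : WithTop ℚ)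
  /-- the sheaf `W_(2kρ)` is a direct summand of some `W_(a,b)` -/
  level : ∀ k, Level (∀ a b, ext a b = 0) K₀ K K' Div (V k) (W k) τ ι v a k
  /-- Birkar, Birkar-Cascini-Hacon-McKernan: if the log discrepancies are positive for some `k` (one
  may replace `k` by a multiple) then `F` has a projective compactification over `U` of Fano type with
  boundary of codimension two, and the Cox ring is finitely generated. Hadžiev, Grosshans: so the algebra of all `W_V ⊗ V^*` is finitely
  generated. Matsushima, Luna: the closed orbit over the point has a reductive stabiliser and an étale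
  slice. -/
  slice : ∀ k, 0 < k → (level k).Klt → Nonempty (Slice (∀ a b, ext a b = 0) P A R Irr)

/-- Not all `W_(a,b)` are Cohen-Macaulay at a point which is not a quotient singularity. -/
theorem Germ.false {ext : ℕ → ℕ → ℕ} {K₀ K K' Div P A R Irr : Type} {V W : ℕ → Type} [Field K₀]
    [Field K] [Algebra K₀ K] [Field K'] [∀ k, AddCommGroup (V k)] [∀ k, Module K (V k)]
    [∀ k, Module K₀ (V k)] [∀ k, AddCommGroup (W k)]
    [∀ k, Module K' (W k)] [CommRing P] [IsLocalRing P] [CommRing A]
    [IsLocalRing A] [Algebra P A] [CommRing R] [Algebra A R]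
    (g : Germ ext K₀ K K' Div P A R Irr V W) (h : ∀ a b, ext a b = 0) : False := by
  have := g.char
  have := g.fin
  have := g.tower
  obtain ⟨δ, hδ, huni⟩ := uniform g.τ g.τ_ne
  obtain ⟨k₀, hk₀⟩ := g.klt δ hδ
  obtain ⟨n, v, v', hv, hv', hd, hs, hs'⟩ := (g.level (k₀ + 1)).dual h
  have hid := huni (V (k₀ + 1)) (g.level (k₀ + 1)).β n v v' hd hs hs'
  obtain ⟨S⟩ := g.slice (k₀ + 1) (Nat.succ_pos _) (fun B =>
    ((g.level (k₀ + 1)).place B).pos δ (hk₀ _ (Nat.le_succ _) B) n v v' hv hv' hid)
  exact S.false h

/-- There is a point which is not a quotient singularity. -/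
def BadPoint (ext : ℕ → ℕ → ℕ) : Prop :=
  ∃ (K₀ K K' Div P A R Irr : Type) (V W : ℕ → Type) (_ : Field K₀)
    (_ : Field K) (_ : Algebra K₀ K) (_ : Field K') (_ : ∀ k, AddCommGroup (V k))
    (_ : ∀ k, Module K (V k)) (_ : ∀ k, Module K₀ (V k)) (_ : ∀ k, AddCommGroup (W k))
    (_ : ∀ k, Module K' (W k)) (_ : CommRing P) (_ : IsLocalRing P) (_ : CommRing A)
    (_ : IsLocalRing A) (_ : Algebra P A) (_ : CommRing R) (_ : Algebra A R),
    Nonempty (Germ ext K₀ K K' Div P A R Irr V W)

theorem BadPoint.false {ext : ℕ → ℕ → ℕ} (g : BadPoint ext) (h : ∀ a b, ext a b = 0) : False := by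
  obtain ⟨K₀, K, K', Div, P, A, R, Irr, V, W, _, _, _, _, _, _, _, _, _, _, _, _, _, _, _, _, ⟨g⟩⟩ := g
  exact g.false h

end Pool.Agent.H13.CM
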